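import Pool.Agent.Helper18.SK.Defs

set_option autoImplicit false

namespace Pool.Agent.Helper15.SK

open Pool.Agent.Helper18.SK

theorem isWalk_append {V E : Type} (src tgt : E → V) (l₁ l₂ : List E) (p q : V) :
    IsWalk src tgt p q (l₁ ++ l₂) ↔ ∃ r, IsWalk src tgt p r l₁ ∧ IsWalk src tgt r q l₂ := by
  induction l₁ generalizing p with
  | nil => simp [IsWalk]
  | cons e l ih =>
    simp only [List.cons_append, IsWalk, ih]
    constructor
    · rintro ⟨h, r, h1, h2⟩
      exact ⟨r, ⟨h, h1⟩, h2⟩
    · rintro ⟨r, ⟨h, h1⟩, h2⟩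
      exact ⟨h, r, h1, h2⟩

theorem walk_map {V E : Type} (src tgt : E → V) (l : List E) (p q : V)
    (h : IsWalk src tgt p q l) :
    (l : Multiset E).map src + {q} = (l : Multiset E).map tgt + {p} := by
  induction l generalizing p with
  | nil =>
    have : p = q := h
    simp [this]
  | cons e l ih =>
    obtain ⟨h1, h2⟩ := h
    have := ih _ h2
    rw [← Multiset.cons_coe, Multiset.map_cons, Multiset.map_cons, Multiset.cons_add, this, h1,
      Multiset.cons_add, ← Multiset.singleton_add, ← Multiset.singleton_add (tgt e)]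
    abel

theorem dv (hE : GEuler) : GDiv := by
  intro V E _ src tgt n p W hn hW hd e he
  classical
  set M : Multiset E := ∑ a ∈ W.toFinset, Multiset.replicate (W.count a / n) a with hM
  have hcount : ∀ a, M.count a = W.count a / n := by
    intro a
    rw [hM, Multiset.count_sum']
    simp only [Multiset.count_replicate]
    rw [Finset.sum_ite_eq' W.toFinset a]
    split_ifs with h
    · rfl
    · have : a ∉ W := by simpa using h
      rw [List.count_eq_zero_of_not_mem this]
      simp
  have hmul : ∀ a, n * M.count a = W.count a := by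
    intro a
    rw [hcount, Nat.mul_div_cancel' (hd a)]
  have hmem : ∀ a, a ∈ M ↔ a ∈ W := by
    intro a
    rw [← Multiset.count_pos, ← List.count_pos_iff, ← hmul a]
    constructor
    · intro h
      exact Nat.mul_pos hn h
    · intro h
      exact Nat.pos_of_mul_pos_left h
  have hnM : n • M = (W : Multiset E) := by
    ext a
    rw [Multiset.count_nsmul, hmul, Multiset.coe_count]
  have hbal : M.map src = M.map tgt := by
    have h1 := walk_map src tgt W p p hW
    have h2 : (W : Multiset E).map src = (W : Multiset E).map tgt := add_right_cancel h1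
    rw [← hnM, Multiset.map_nsmul, Multiset.map_nsmul] at h2
    ext v
    have h3 := congrArg (Multiset.count v) h2
    rw [Multiset.count_nsmul, Multiset.count_nsmul] at h3
    exact Nat.eq_of_mul_eq_mul_left hn h3
  have hconn : ∀ e₁ ∈ M, ∀ e₂ ∈ M,
      ∃ l : List E, IsWalk src tgt (tgt e₁) (src e₂) l ∧ ∀ a ∈ l, a ∈ M := by
    intro e₁ h₁ e₂ h₂
    rw [hmem] at h₁ h₂
    obtain ⟨A, B, hAB⟩ := List.append_of_mem h₁
    rw [hAB] at hW
    obtain ⟨r, hA, hB⟩ := (isWalk_append src tgt A (e₁ :: B) p p).1 hW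
    obtain ⟨hr, hB⟩ := hB
    have hall : IsWalk src tgt (tgt e₁) (tgt e₁) (B ++ (A ++ [e₁])) := by
      rw [isWalk_append]
      refine ⟨p, hB, ?_⟩
      rw [isWalk_append]
      exact ⟨r, hA, hr, rfl⟩
    have h₂' : e₂ ∈ B ++ (A ++ [e₁]) := by
      rw [hAB] at h₂
      simp only [List.mem_append, List.mem_cons] at h₂ ⊢
      tauto
    obtain ⟨C, D, hCD⟩ := List.append_of_mem h₂'
    rw [hCD, isWalk_append] at hall
    obtain ⟨s, hC, hs, -⟩ := hall
    refine ⟨C, hs ▸ hC, ?_⟩
    intro a ha
    rw [hmem, hAB]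
    have : a ∈ B ++ (A ++ [e₁]) := by
      rw [hCD]
      exact List.mem_append_left _ ha
    simp only [List.mem_append, List.mem_cons] at this ⊢
    tauto
  obtain ⟨l, hl, hlM⟩ := hE V E src tgt M hbal hconn e ((hmem e).2 he)
  refine ⟨l, hl, ?_⟩
  intro a
  rw [← hmul a, ← hlM, Multiset.coe_count]

end Pool.Agent.Helper15.SK
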